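import Pool.Agent.helper52.ED.SpecP

set_option autoImplicit false

open Complex Metric Set Filter Topology MeasureTheory
open Pool.Agent.helper98.ILF Pool.Agent.helper16.Multibrot HY
open DH (co Tow yv jj FA REL)

noncomputable section

namespace ED

theorem ORB (hBTP : DH.BTP_stmt) (hTSG : DH.TSG_stmt) : ORB_stmt := by
  intro n c Φ b M k p t hFA
  obtain ⟨-, hB⟩ := hBTP n c Φ b hFA.tow
  obtain ⟨-, hy, -, -⟩ := hB k t p hFA.mem
  refine ⟨hTSG n c Φ b hFA.tow k, ?_, ?_, hFA.far⟩
  · intro i _
    exact (hy k i).1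
  · intro i _
    rw [(hy k (i + 1)).2, (hy k i).2, Function.iterate_succ_apply']

end ED
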